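import Pool.Agent.W559.Et.Stm

set_option autoImplicit false
set_option linter.unusedSectionVars false

open MvPolynomial Cardinal

universe u

namespace Pool.Agent.W393.ET

open Pool.Agent.W559.Mg Pool.Agent.W559.Et

section lin

variable {k K : Type u} [Field k] [Field K] [Algebra k K] {γ : K →ₐ[k] K} {p : ℕ}
  {β : Type u} {m : β → ℕ} {y : β → ℕ → K}

lemma yit (hyd : ∀ b i, dl γ (y b i) = y b (i + 1)) (b : β) (i n : ℕ) :
    (dl γ)^[n] (y b i) = y b (i + n) := by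
  induction n generalizing i with
  | zero => rfl
  | succ n ih =>
    rw [Function.iterate_succ_apply, hyd, ih]
    congr 1
    ring

/-- The chains in the Laurent algebra. -/
noncomputable def Yl (p : ℕ) (y : β → ℕ → K) : β → ℕ → ML K G3 := yl (wr p) (fun _ => 0) y

lemma Yl_eq (b : β) (i : ℕ) : Yl p y b i = mo (dg (wr p i) 0 0) (y b i) := rfl

lemma jd (hy0 : ∀ b i, m b ≤ i → y b i = 0) (hyd : ∀ b i, dl γ (y b i) = y b (i + 1))
    (hmp : ∀ b, m b ≤ p * p) :
    JD (gm G3 γ) p (mo (dg (-1) 0 0) (1 : K)) (mo (dg 0 1 0) 1)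
    (mo (dg 0 (-1) 0) 1) (mo (dg 0 0 1) 1) (mo (dg 0 0 (-1)) 1) m (Yl p y) where
  gs := gm_mo_one γ _
  gT := gm_mo_one γ _
  gz := gm_mo_one γ _
  TT := TT'_one
  zz := by rw [mo_mul, dg_add, one_mul, add_neg_cancel]; rfl
  s0 := mo_ne_zero one_ne_zero
  y0 := fun b i hi => by rw [Yl_eq, hy0 b i hi, mo_zero]
  y1 := fun b i hi => by
    rw [Yl_eq, Yl_eq, dl_mo, hyd]
    congr 2
    unfold wr
    have h1 : (i + 1) / p = i / p := Nat.succ_div_of_not_dvd (fun h => hi (Nat.mod_eq_zero_of_dvd h))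
    rw [h1]
  y2 := fun b i hi => by
    rw [Yl_eq, Yl_eq, dl_mo, hyd, mo_mul, one_mul, dg_add, zero_add]
    congr 2
    unfold wr
    have h1 : (i + 1) / p = i / p + 1 := Nat.succ_div_of_dvd (Nat.dvd_of_mod_eq_zero hi)
    rw [h1]
    push_cast
    ring
  mp := hmp

/-- Closure property. -/
lemma acl_top' (halg : ∀ a : K, IsAlgebraic (Bp k y) a) (Z : Subalgebra k (ML K G3)) (hZ : Acl Z)
    (hs : mo (dg (-1) 0 0) 1 ∈ Z) (hT : mo (dg 0 (-1) 0) 1 ∈ Z) (hz : mo (dg 0 0 1) 1 ∈ Z)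
    (hy : ∀ b i, Yl p y b i ∈ Z) : Z = ⊤ := by
  have h1 : mo (dg 1 0 0) 1 ∈ Z := hZ.of_inv hs (by
    rw [mo_mul, dg_add, one_mul]; rfl)
  have h2 : mo (dg 0 1 0) 1 ∈ Z := hZ.of_inv hT (by
    rw [mo_mul, dg_add, one_mul]; rfl)
  have h4 : mo (dg 0 0 (-1)) 1 ∈ Z := hZ.of_inv hz (by
    rw [mo_mul, dg_add, one_mul]; rfl)
  have hi : ∀ (d : G3), mo d 1 ∈ Z → mo (-d) 1 ∈ Z → ∀ n : ℤ, mo (n • d) 1 ∈ Z := by
    intro d hd hd' n
    have h5 := zpow_mem' (u := (1 : K)) hd (by rwa [inv_one]) n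
    rwa [one_zpow] at h5
  have hall : ∀ a b c : ℤ, mo (dg a b c) 1 ∈ Z := by
    intro a b c
    have e1 := hi _ h1 hs a
    have e2 := hi _ h2 hT b
    have e3 := hi _ hz h4 c
    have e4 := Z.mul_mem (Z.mul_mem e1 e2) e3
    rw [mo_mul, mo_mul, one_mul, one_mul] at e4
    have e5 : a • dg 1 0 0 + b • dg 0 1 0 + c • dg 0 0 1 = dg a b c := by
      unfold dg
      ext <;> simp
    rwa [e5] at e4
  have hy0 : ∀ b i, mo 0 (y b i) ∈ Z := by
    intro b i
    have e1 := Z.mul_mem (hy b i) (hall (-(wr p i)) 0 0)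
    rw [Yl_eq, mo_mul, mul_one, dg_add, add_neg_cancel] at e1
    exact e1
  have hB : ∀ x ∈ Bp k y, mo 0 x ∈ Z := by
    intro x hx
    have e1 : Bp k y ≤ Z.comap (zr k K G3) := by
      unfold Bp
      rw [Algebra.adjoin_le_iff]
      rintro _ ⟨b, i, rfl⟩
      exact hy0 b i
    exact e1 hx
  have hK : ∀ x : K, mo 0 x ∈ Z := by
    intro x
    obtain ⟨P, hP0, hPx⟩ := halg x
    refine hZ ((P.map (algebraMap (Bp k y) K)).map (zr k K G3).toRingHom) (mo 0 x) ?_ ?_ ?_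
    · intro h0
      apply hP0
      apply Polynomial.map_injective (algebraMap (Bp k y) K) Subtype.val_injective
      apply Polynomial.map_injective (zr k K G3).toRingHom (fun a b hab => mo_inj hab)
      rw [h0, Polynomial.map_zero, Polynomial.map_zero]
    · intro i
      rw [Polynomial.coeff_map, Polynomial.coeff_map]
      exact hB _ (P.coeff i).2
    · have e1 : (Polynomial.eval x (P.map (algebraMap (Bp k y) K))) = 0 := by
        rw [Polynomial.eval_map]
        exact hPx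
      have e2 : mo 0 x = (zr k K G3).toRingHom x := rfl
      rw [e2, Polynomial.eval_map, Polynomial.eval₂_at_apply, e1, map_zero]
  rw [eq_top_iff]
  rintro f -
  apply mem_of_comp
  intro d
  have e1 := Z.mul_mem (hall d.1 d.2.1 d.2.2.1) (hK (f.coeff d))
  rw [mo_mul, one_mul, add_zero] at e1
  exact e1

/-- The Rees algebra is the base algebra. -/
lemma RF_eq (hp : p.Prime) (hpk : (p : k) = 0) (hyd : ∀ b i, dl γ (y b i) = y b (i + 1)) :
    RF γ p (Bp k y) = R0 (k := k) (mo (dg (-1) 0 0) (1 : K)) (mo (dg 0 0 1) 1)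
      (mo (dg 0 0 (-1)) 1) (Yl p y) := by
  have hpK := cast_p (D := K) (k := k) hpk
  have hσ : ∀ x : K, dl (γ ^ p) x = (dl γ)^[p] x := fun x => by
    rw [dl_iter_p γ hp hpK, ← pow_app]; rfl
  have hσn : ∀ (n : ℕ) (b : β) (i : ℕ), (dl (γ ^ p))^[n] (y b i) = y b (i + n * p) := by
    intro n
    induction n with
    | zero => intro b i; rw [zero_mul]; rfl
    | succ n ih =>
      intro b i
      rw [Function.iterate_succ_apply', ih, hσ, yit hyd]
      congr 1
      ring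
  apply le_antisymm
  · set S := R0 (k := k) (mo (dg (-1) 0 0) (1 : K)) (mo (dg 0 0 1) 1)
      (mo (dg 0 0 (-1)) 1) (Yl p y) with hS
    have hs : mo (dg (-1) 0 0) 1 ∈ S := Algebra.subset_adjoin (Or.inl (Or.inl rfl))
    have hz : mo (dg 0 0 1) 1 ∈ S := Algebra.subset_adjoin (Or.inl (Or.inr (Or.inl rfl)))
    have hz' : mo (dg 0 0 (-1)) 1 ∈ S := Algebra.subset_adjoin (Or.inl (Or.inr (Or.inr rfl)))
    have hY : ∀ b i, Yl p y b i ∈ S := fun b i => Algebra.subset_adjoin (Or.inr ⟨b, i, rfl⟩)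
    have hmo : ∀ d : G3, Dn (dg 1 0 0) (γ ^ p) (mo d 1) = 0 := by
      intro d
      have h1 : dl (γ ^ p) (1 : K) = 0 := by unfold dl; rw [map_one, sub_self]
      rw [Dn_mo, h1, mo_zero]
    have hDn : ∀ f ∈ S, Dn (dg 1 0 0) (γ ^ p) f ∈ S := by
      refine Dn_stable _ rfl _ _ hs ?_
      rintro f ((hf | hf | hf) | ⟨b, i, rfl⟩)
      · rw [hf, hmo]; exact Subalgebra.zero_mem _
      · rw [hf, hmo]; exact Subalgebra.zero_mem _
      · rw [Set.mem_singleton_iff.1 hf, hmo]; exact Subalgebra.zero_mem _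
      · have h1 : Dn (dg 1 0 0) (γ ^ p) (Yl p y b i) = Yl p y b (i + p) := by
          rw [Yl_eq, Yl_eq, Dn_mo, hσ, yit hyd, dg_add, zero_add]
          congr 2
          unfold wr
          rw [Nat.add_div_right _ hp.pos]
          push_cast
          ring
        rw [h1]
        exact hY _ _
    have hDnj : ∀ (j : ℕ), ∀ f ∈ S, (Dn (dg 1 0 0) (γ ^ p))^[j] f ∈ S := by
      intro j
      induction j with
      | zero => exact fun f hf => hf
      | succ j ih => intro f hf; rw [Function.iterate_succ_apply']; exact hDn _ (ih f hf)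
    have hB : ∀ a ∈ Bp k y, mo 0 a ∈ S := by
      intro a ha
      have e1 : Bp k y ≤ S.comap (zr k K G3) := by
        unfold Bp
        rw [Algebra.adjoin_le_iff]
        rintro _ ⟨b, i, rfl⟩
        change mo 0 (y b i) ∈ S
        have h1 := S.mul_mem (S.pow_mem hs (i / p)) (hY b i)
        rw [mo_pow, one_pow, Yl_eq, mo_mul, one_mul, dg_nsmul, dg_add] at h1
        have h2 : dg (((i / p : ℕ) : ℤ) * -1 + wr p i) (((i / p : ℕ) : ℤ) * 0 + 0)
            (((i / p : ℕ) : ℤ) * 0 + 0) = 0 := by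
          unfold wr
          rw [← dg_zero]
          congr 1 <;> ring
        rwa [h2] at h1
      exact e1 ha
    unfold RF
    rw [Algebra.adjoin_le_iff]
    rintro f ((hf | hf | hf) | ⟨a, ha, j, rfl⟩)
    · rw [hf]; exact hs
    · rw [hf]; exact hz
    · rw [Set.mem_singleton_iff.1 hf]; exact hz'
    · have h1 := hDnj j _ (hB a ha)
      rw [Dn_iter_mo, add_zero, dg_nsmul, mul_one, mul_zero] at h1
      exact h1
  · unfold R0
    rw [Algebra.adjoin_le_iff]
    rintro f ((hf | hf | hf) | ⟨b, i, rfl⟩)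
    · rw [hf]; exact Algebra.subset_adjoin (Or.inl (Or.inl rfl))
    · rw [hf]; exact Algebra.subset_adjoin (Or.inl (Or.inr (Or.inl rfl)))
    · rw [Set.mem_singleton_iff.1 hf]
      exact Algebra.subset_adjoin (Or.inl (Or.inr (Or.inr rfl)))
    · refine Algebra.subset_adjoin (Or.inr ⟨y b (i % p), Algebra.subset_adjoin ⟨b, i % p, rfl⟩,
        i / p, ?_⟩)
      rw [hσn, Nat.mod_add_div', Yl_eq]
      rfl

/-- Polynomials over the base algebra. -/
lemma Rp_eq (s z z' : ML K G3) (Y : β → ℕ → ML K G3) :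
    Rp p s (R0 (k := k) s z z' Y) = R0p (k := k) (C s : MvPolynomial (Fin p) (ML K G3)) (C z)
      (C z') (fun b i => C (Y b i)) (th p s) := by
  apply le_antisymm
  · unfold Rp
    rw [Algebra.adjoin_le_iff]
    have h1 : R0 (k := k) s z z' Y ≤ (R0p (k := k) (C s : MvPolynomial (Fin p) (ML K G3)) (C z)
      (C z') (fun b i => C (Y b i)) (th p s)).comap (cc k p) := by
      unfold R0
      rw [Algebra.adjoin_le_iff]
      rintro f ((hf | hf | hf) | ⟨b, i, rfl⟩)
      · rw [hf]; exact Algebra.subset_adjoin (Or.inl (Or.inl (Or.inl rfl)))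
      · rw [hf]; exact Algebra.subset_adjoin (Or.inl (Or.inl (Or.inr (Or.inl rfl))))
      · rw [Set.mem_singleton_iff.1 hf]
        exact Algebra.subset_adjoin (Or.inl (Or.inl (Or.inr (Or.inr rfl))))
      · exact Algebra.subset_adjoin (Or.inl (Or.inr ⟨b, i, rfl⟩))
    rintro _ (⟨f, hf, rfl⟩ | ⟨i, rfl⟩)
    · exact h1 hf
    · exact Algebra.subset_adjoin (Or.inr ⟨i, rfl⟩)
  · unfold R0p
    rw [Algebra.adjoin_le_iff]
    have hC : ∀ f ∈ R0 (k := k) s z z' Y, C f ∈ Rp p s (R0 (k := k) s z z' Y) :=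
      fun f hf => Algebra.subset_adjoin (Or.inl ⟨f, hf, rfl⟩)
    rintro f (((hf | hf | hf) | ⟨b, i, rfl⟩) | ⟨i, rfl⟩)
    · rw [hf]; exact hC _ (Algebra.subset_adjoin (Or.inl (Or.inl rfl)))
    · rw [hf]; exact hC _ (Algebra.subset_adjoin (Or.inl (Or.inr (Or.inl rfl))))
    · rw [Set.mem_singleton_iff.1 hf]
      exact hC _ (Algebra.subset_adjoin (Or.inl (Or.inr (Or.inr rfl))))
    · exact hC _ (Algebra.subset_adjoin (Or.inr ⟨b, i, rfl⟩))
    · exact Algebra.subset_adjoin (Or.inr ⟨i, rfl⟩)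

end lin

theorem linStm : LinStm.{u} := by
  intro k K _ _ _ γ p hp hpk hγ β _ m y hy0 hyd hmp hai halg
  unfold SU
  rw [RF_eq hp hpk hyd]
  unfold sS
  rw [Rp_eq]
  refine (jd hy0 hyd hmp).smooth_univ hp hpk (trdeg_ML (fun q : Σ b, Fin (m b) => y q.1 q.2) hai) ?_
  intro Z hZ hs hT hz hy
  exact acl_top' (p := p) halg Z hZ hs hT hz hy

end Pool.Agent.W393.ET
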